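import Pool.Agent.H91.RF.TargetsF

/-!
# MP_609556_an, module FPC: the derivative of `f`
-/

set_option autoImplicit false

open MeasureTheory Set Filter Topology Metric
open Pool.Agent.H91.RD Pool.Agent.H91.RF

namespace Pool.Agent.H73.RF

theorem FPC : T_FPC := by
  intro f K hf hL
  have hdiff : DifferentiableOn ℝ f (Icc 0 1) := hf.smooth.differentiableOn (by norm_num)
  have hud : UniqueDiffOn ℝ (Icc (0 : ℝ) 1) := uniqueDiffOn_Icc one_pos
  have hcont : ContinuousOn (fp f) (Icc 0 1) := hf.smooth.continuousOn_derivWithin hud le_rfl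
  have hout : ∀ s, s ∉ Icc (0 : ℝ) 1 → fp f s = 0 := by
    intro s hs
    exact derivWithin_zero_of_notMem_closure (by rwa [isClosed_Icc.closure_eq])
  have hhas : ∀ s ∈ Icc (0 : ℝ) 1, HasDerivWithinAt f (fp f s) (Icc 0 1) s :=
    fun s hs => (hdiff s hs).hasDerivWithinAt
  refine ⟨?_, hcont, ?_, hhas⟩
  · intro s
    by_cases hs : s ∈ Icc (0 : ℝ) 1
    · have h1 := hasDerivWithinAt_iff_tendsto_slope.1 (hhas s hs)
      have hne : (𝓝[Icc (0 : ℝ) 1 \ {s}] s).NeBot := by
        have := uniqueDiffWithinAt_iff_accPt.1 (hud s hs)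
        rw [accPt_principal_iff_nhdsWithin] at this
        exact this
      refine le_of_tendsto h1.abs ?_
      filter_upwards [self_mem_nhdsWithin] with y hy
      have hys : y - s ≠ 0 := sub_ne_zero.2 hy.2
      rw [slope_def_field, abs_div, div_le_iff₀ (abs_pos.2 hys)]
      exact hL.lip y s
    · rw [hout s hs, abs_zero]
      exact hL.K0.le
  · have h2 : fp f = (Icc (0 : ℝ) 1).piecewise (fp f) (fun _ => 0) := by
      funext s
      by_cases hs : s ∈ Icc (0 : ℝ) 1
      · rw [Set.piecewise_eq_of_mem _ _ _ hs]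
      · rw [Set.piecewise_eq_of_notMem _ _ _ hs, hout s hs]
    rw [h2]
    exact ContinuousOn.measurable_piecewise hcont continuousOn_const measurableSet_Icc

end Pool.Agent.H73.RF
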