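import Pool.Agent.H73.RF.LIBnrm

/-!
# MP_609556_an, module LIB: local gain where `F_a` is close to its maximal multiple of `p`
-/

set_option autoImplicit false

open MeasureTheory Set Filter Topology Metric
open Pool.Agent.H29.TF (hk P)
open Pool.Agent.H91.RD Pool.Agent.H91.RF Pool.Agent.H3.RF

namespace Pool.Agent.H73.RF

theorem pt_shift {N : ℕ} {K : ℝ} {V : ℝ → E N → ℝ} (h : Pt K V) (t : ℝ) (x : E N) :
    Pt K (fun τ y => V (t + τ) (x + y)) := by
  refine ⟨h.K0, fun τ y => h.bdd _ _, ?_⟩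
  have : Measurable (fun p : ℝ × E N => ((t + p.1, x + p.2) : ℝ × E N)) := by
    fun_prop
  exact h.meas.comp this

theorem LIB (hLIBA : T_LIBA) (hLIBB : T_LIBB) (hGLIM : T_GLIM) (hSTH : T_STH) (hGTR : T_GTR)
    (hGSC : T_GSC) (hSEQ : T_SEQ) (hKREP : T_KREP) (hNSUP : T_NSUP) (hUPB : T_UPB)
    (hLINU : T_LINU) (hKER : T_KER) : T_LIB := by
  intro N f K cc C0 C9 η0 U u hst hcc hfrm hABd α hα M hM hAt ε1 hε1
  obtain ⟨hPt, _, hLin, Cd, hCd⟩ := hLINU N f K U u hst.reac hst.lip hst.sol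
  have hK := hPt.K0
  obtain ⟨C1, hC1, hsth⟩ := hSTH N K (2 * cc * (1 + α) ^ 2 + M + 1) hK (by positivity)
  obtain ⟨S, hS, hlibb⟩ := hLIBB N K C1 cc α M (ε1 / 2) hst.N1 hK hC1 hcc hα hM.le (by positivity)
  refine ⟨S, hS, ?_⟩
  by_contra hcon
  push Not at hcon
  have hseq : ∀ n : ℕ, ∃ (t : ℝ) (x e a : E N), (n : ℝ) + 1 ≤ t ∧ NDir U (1 / ((n : ℝ) + 1)) x e ∧
      |infDist x U - cc * t| ≤ 1 / ((n : ℝ) + 1) * t ∧ ‖a‖ = α ∧ inner ℝ a e = 0 ∧
      (M - 1 / ((n : ℝ) + 1)) * -dx u e t x ≤ Fa u cc e a t x ∧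
      Gn (pot f u) (fun y => max (-dx u e (t - S) y) 0) ((cc + cc * α ^ 2 + M) / 2) cc e S t x <
        Real.log (-dx u e t x) + (cc * M / 2 - ε1) * S := by
    intro n
    have hp : (0 : ℝ) < 1 / ((n : ℝ) + 1) := by positivity
    obtain ⟨t, ht, x, e, a, h1, h2, h3, h4, h5, h6⟩ :=
      hcon (1 / ((n : ℝ) + 1)) hp (1 / ((n : ℝ) + 1)) hp ((n : ℝ) + 1) (by positivity)
    exact ⟨t, x, e, a, ht, h1, h2, h3, h4, h5, h6⟩
  choose tn xn en an htn hdn hrn hαn hon hFn hGn using hseq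
  have htend : Tendsto tn atTop atTop := by
    refine tendsto_atTop_mono (f := fun n : ℕ => (n : ℝ)) (fun n => ?_) tendsto_natCast_atTop_atTop
    have := htn n
    linarith
  obtain ⟨σ, e, h, hσ, he, hen, hhn, hseqσ⟩ := (hSEQ N U cc hst.condC hst.ne hcc).2 tn xn en
    (fun n => (1 / (α + 1)) • an n) htend (fun n => ⟨hdn n, hrn n⟩) (fun n => by
      rw [norm_smul, hαn, Real.norm_eq_abs, abs_of_nonneg (by positivity), one_div,
        inv_mul_le_iff₀ (by positivity)]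
      linarith)
  set a : E N := (α + 1) • h with ha
  have han : Tendsto (an ∘ σ) atTop (𝓝 a) := by
    have h1 : Tendsto (fun n => (α + 1) • ((1 / (α + 1)) • an (σ n))) atTop (𝓝 ((α + 1) • h)) :=
      hhn.const_smul (α + 1)
    refine h1.congr (fun n => ?_)
    rw [smul_smul]
    have : (α + 1) * (1 / (α + 1)) = 1 := by field_simp
    rw [this, one_smul]
    rfl
  have hanorm : ‖a‖ = α := by
    have h1 : Tendsto (fun n => ‖(an ∘ σ) n‖) atTop (𝓝 ‖a‖) := han.norm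
    have h2 : (fun n => ‖(an ∘ σ) n‖) = fun _ => α := by
      funext n
      exact hαn _
    rw [h2] at h1
    exact (tendsto_nhds_unique h1 tendsto_const_nhds)
  have hae : inner ℝ a e = 0 := by
    have h1 : Tendsto (fun n => inner ℝ ((an ∘ σ) n) ((en ∘ σ) n)) atTop (𝓝 (inner ℝ a e)) :=
      han.inner hen
    have h2 : (fun n => inner ℝ ((an ∘ σ) n) ((en ∘ σ) n)) = fun _ => (0 : ℝ) := by
      funext n
      exact hon _
    rw [h2] at h1
    exact (tendsto_nhds_unique h1 tendsto_const_nhds)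
  -- the normalisation, eventually
  have hσt := hσ.tendsto_atTop
  have hev1 : ∀ η > 0, ∀ᶠ n in atTop, 1 / ((σ n : ℝ) + 1) ≤ η := by
    intro η hη
    have h1 : Tendsto (fun n : ℕ => 1 / ((n : ℝ) + 1)) atTop (𝓝 0) :=
      tendsto_one_div_add_atTop_nhds_zero_nat
    have h2 := (h1.comp hσt).eventually (gt_mem_nhds hη)
    filter_upwards [h2] with n hn
    exact hn.le
  have hevd : ∀ η > 0, ∀ᶠ n in atTop, NDir U η (xn (σ n)) (en (σ n)) ∧
      |infDist (xn (σ n)) U - cc * tn (σ n)| ≤ η * tn (σ n) := by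
    intro η hη
    filter_upwards [hev1 η hη] with n hn
    obtain ⟨h1, ξ, e0, h2, h3⟩ := hdn (σ n)
    refine ⟨⟨h1, ξ, e0, h2, h3.trans hn⟩, (hrn (σ n)).trans ?_⟩
    apply mul_le_mul_of_nonneg_right hn
    have := htn (σ n)
    have h4 : (0 : ℝ) ≤ (σ n : ℝ) := Nat.cast_nonneg _
    linarith
  have hevt : ∀ T : ℝ, ∀ᶠ n in atTop, T ≤ tn (σ n) := fun T =>
    (htend.comp hσt).eventually (eventually_ge_atTop T)
  have hnrm := nrm hKREP hNSUP hUPB hLINU hKER hst hcc hfrm S hS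
  have hevp : ∀ᶠ n in atTop, 0 < -dx u (en (σ n)) (tn (σ n)) (xn (σ n)) := by
    obtain ⟨η, hη, T, hT, hh⟩ := hnrm 1 one_pos
    filter_upwards [hevd η hη, hevt T] with n h1 h2
    exact (hh _ h2 _ _ h1.1 h1.2).1
  -- the limit environment
  obtain ⟨σ', W, p, hσ', hPtW, hVW, hWs, hpc, hp0, hprep, hpu⟩ :=
    hLIBA N f K cc C0 C9 η0 U u hst hcc hfrm hABd α hα M hM.le hAt (tn ∘ σ) (xn ∘ σ) (en ∘ σ)
      (an ∘ σ) e a hseqσ (fun η hη => (hevd η hη).mono fun n hn => hn.1) hen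
      (fun n => ⟨hαn _, hon _⟩) han (by
        intro ε hε
        filter_upwards [hev1 ε hε, hevp] with n h1 h2
        refine le_trans ?_ (hFn (σ n))
        apply mul_le_mul_of_nonneg_right _ h2.le
        linarith)
  set w : E N := (cc * (1 - α ^ 2) - M) • e - (2 * cc) • a with hw
  have hσ't := hσ'.tendsto_atTop
  -- tail
  have htail : ∀ᶠ n in atTop, 0 < -dx u (en (σ (σ' n))) (tn (σ (σ' n))) (xn (σ (σ' n))) ∧
      -dx u (en (σ (σ' n))) (tn (σ (σ' n))) (xn (σ (σ' n))) ≤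
        ∫ y, gk (pot f u) (tn (σ (σ' n))) (xn (σ (σ' n))) (tn (σ (σ' n)) - S) y *
          max (-dx u (en (σ (σ' n))) (tn (σ (σ' n)) - S) y) 0 ∧ S + 1 ≤ tn (σ (σ' n)) := by
    obtain ⟨η, hη, T, hT, hh⟩ := hnrm 1 one_pos
    filter_upwards [hσ't.eventually (hevd η hη), hσ't.eventually (hevt T),
      hσ't.eventually (hevt (S + 1))] with n h1 h2 h3
    obtain ⟨a1, a2, _⟩ := hh _ h2 _ _ h1.1 h1.2
    exact ⟨a1, a2, h3⟩
  obtain ⟨n0, hn0⟩ := eventually_atTop.1 htail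
  set τ : ℕ → ℕ := fun n => σ (σ' (n + n0)) with hτ
  have hτt : Tendsto (fun n : ℕ => n + n0) atTop atTop := tendsto_add_atTop_nat n0
  have hpos : ∀ n, 0 < -dx u (en (τ n)) (tn (τ n)) (xn (τ n)) := fun n =>
    (hn0 (n + n0) (Nat.le_add_left _ _)).1
  have hposI : ∀ n, -dx u (en (τ n)) (tn (τ n)) (xn (τ n)) ≤
      ∫ y, gk (pot f u) (tn (τ n)) (xn (τ n)) (tn (τ n) - S) y *
        max (-dx u (en (τ n)) (tn (τ n) - S) y) 0 := fun n =>
    (hn0 (n + n0) (Nat.le_add_left _ _)).2.1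
  have hlate : ∀ n, S + 1 ≤ tn (τ n) := fun n =>
    (hn0 (n + n0) (Nat.le_add_left _ _)).2.2
  -- data of the passage to the limit
  set V : ℕ → ℝ → E N → ℝ := fun n t x => pot f u (tn (τ n) + t) (xn (τ n) + x) with hV
  set g : ℕ → E N → ℝ := fun n y => max (-dx u (en (τ n)) (tn (τ n) - S) y) 0 with hg
  set lam : ℕ → ℝ := fun n => (-dx u (en (τ n)) (tn (τ n)) (xn (τ n)))⁻¹ with hlam
  set hf : ℕ → E N → ℝ := fun n y => lam n * g n (xn (τ n) + y) with hhf
  have hlam0 : ∀ n, 0 < lam n := fun n => inv_pos.2 (hpos n)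
  have hPtV : ∀ n, Pt K (V n) := fun n => pt_shift hPt _ _
  have hgm : ∀ n, Measurable (g n) := by
    intro n
    have h1 := ((hLin (tn (τ n) - S) (tn (τ n)) (by linarith [hlate n]) (by linarith)).1
      (en (τ n))).meas
    exact h1.neg.max measurable_const
  have hg0 : ∀ n y, 0 ≤ g n y := fun n y => le_max_right _ _
  have hen1 : ∀ n, ‖en n‖ = 1 := fun n => (hdn n).1
  have hgb : ∀ n y, g n y ≤ |Cd| := by
    intro n y
    apply max_le _ (abs_nonneg _)
    have h1 := dx_abs_le u (en (τ n)) (hen1 _) (tn (τ n) - S) y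
    have h2 := (hCd (tn (τ n) - S) (by linarith [hlate n]) y).1
    have h3 := neg_le_abs (dx u (en (τ n)) (tn (τ n) - S) y)
    have h4 := le_abs_self Cd
    linarith
  have hhm : ∀ n, Measurable (hf n) := by
    intro n
    have : Measurable (fun y : E N => xn (τ n) + y) := by fun_prop
    exact ((hgm n).comp this).const_mul _
  have hh0 : ∀ n y, 0 ≤ hf n y := fun n y => mul_nonneg (hlam0 n).le (hg0 _ _)
  have hhb : ∀ n, ∃ M, ∀ y, hf n y ≤ M := fun n =>
    ⟨lam n * |Cd|, fun y => mul_le_mul_of_nonneg_left (hgb _ _) (hlam0 n).le⟩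
  -- convergence of `hf`
  have hform : ∀ n y, hf n y = max (dx u (en (τ n)) (tn (τ n) - S) (xn (τ n) + y) /
      dx u (en (τ n)) (tn (τ n)) (xn (τ n))) 0 := by
    intro n y
    have hp := hpos n
    show (-dx u (en (τ n)) (tn (τ n)) (xn (τ n)))⁻¹ *
      max (-dx u (en (τ n)) (tn (τ n) - S) (xn (τ n) + y)) 0 = _
    rw [← neg_div_neg_eq (dx u (en (τ n)) (tn (τ n) - S) (xn (τ n) + y)), inv_mul_eq_div]
    rcases le_total (-dx u (en (τ n)) (tn (τ n) - S) (xn (τ n) + y)) 0 with h | h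
    · rw [max_eq_right h, max_eq_right, zero_div]
      exact div_nonpos_of_nonpos_of_nonneg h hp.le
    · rw [max_eq_left h, max_eq_left]
      exact div_nonneg h hp.le
  have hunif : ∀ R > 0, TendstoUniformlyOn (fun n y =>
      dx u (en (τ n)) (tn (τ n) - S) (xn (τ n) + y) / dx u (en (τ n)) (tn (τ n)) (xn (τ n)))
      (fun y => p (y + S • w)) atTop (closedBall 0 R) := by
    intro R hR
    have h1 := hpu S hS R hR
    intro v hv
    exact hτt.eventually (h1 v hv)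
  have hptw : ∀ y, Tendsto (fun n => hf n y) atTop (𝓝 (p (y + S • w))) := by
    intro y
    have h1 : Tendsto (fun n => dx u (en (τ n)) (tn (τ n) - S) (xn (τ n) + y) /
        dx u (en (τ n)) (tn (τ n)) (xn (τ n))) atTop (𝓝 (p (y + S • w))) :=
      (hunif (‖y‖ + 1) (by positivity)).tendsto_at (by
        rw [mem_closedBall_zero_iff]
        linarith)
    have h2 := h1.max (tendsto_const_nhds (x := (0 : ℝ)))
    rw [max_eq_left (hp0 _)] at h2
    refine h2.congr (fun n => (hform n y).symm)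
  have hbound : ∀ R > 0, ∃ B, ∀ᶠ n in atTop, ∀ y ∈ closedBall (0 : E N) R, hf n y ≤ B := by
    intro R hR
    have hcont : ContinuousOn (fun y : E N => p (y + S • w)) (closedBall 0 R) := by
      have : Continuous (fun y : E N => p (y + S • w)) := hpc.comp (by fun_prop)
      exact this.continuousOn
    obtain ⟨B, hB⟩ := (isCompact_closedBall (0 : E N) R).bddAbove_image hcont
    refine ⟨|B| + 1, ?_⟩
    have h1 := Metric.tendstoUniformlyOn_iff.1 (hunif R hR) 1 one_pos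
    filter_upwards [h1] with n hn y hy
    rw [hform]
    apply max_le _ (by positivity)
    have h2 := hn y hy
    have h3 : p (y + S • w) ≤ B := hB ⟨y, hy, rfl⟩
    rw [dist_comm, Real.dist_eq] at h2
    have h4 := (abs_lt.1 h2).2
    have h5 := le_abs_self B
    linarith
  have hVlim : ∀ t ∈ Ioo (-S) 0, ∀ x, Tendsto (fun n => V n t x) atTop (𝓝 (W t x)) := by
    intro t ht x
    exact (hVW t ht.2.le x).comp hτt
  have hek : Tendsto (fun n => en (τ n)) atTop (𝓝 e) := (hen.comp hσ't).comp hτt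
  -- integrals
  have hI : ∀ n, ∫ y, gk (V n) 0 0 (0 - S) y * hf n y = lam n *
      ∫ y, gk (pot f u) (tn (τ n)) (xn (τ n)) (tn (τ n) - S) y * g n y := by
    intro n
    rw [(hGTR N (pot f u) (g n) 0 0 S (tn (τ n)) 0 (xn (τ n)) hS).2, ← integral_const_mul]
    congr 1
    funext y
    show _ * (lam n * g n (xn (τ n) + y)) = _
    ring
  have hIpos : ∀ n, 0 < ∫ y, gk (pot f u) (tn (τ n)) (xn (τ n)) (tn (τ n) - S) y * g n y :=
    fun n => lt_of_lt_of_le (hpos n) (hposI n)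
  have hIlim : Tendsto (fun n => ∫ y, gk (V n) 0 0 (0 - S) y * hf n y) atTop (𝓝 1) := by
    rw [Metric.tendsto_atTop]
    intro ε hε
    obtain ⟨η, hη, T, hT, hh⟩ := hnrm (ε / 2) (by positivity)
    have h1 : ∀ᶠ n in atTop, |(∫ y, gk (V n) 0 0 (0 - S) y * hf n y) - 1| < ε := by
      filter_upwards [hτt.eventually (hσ't.eventually (hevd η hη)),
        hτt.eventually (hσ't.eventually (hevt T))] with n h1 h2
      obtain ⟨a1, a2, a3⟩ := hh _ h2 _ _ h1.1 h1.2
      rw [hI]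
      have b1 : 1 ≤ lam n *
          ∫ y, gk (pot f u) (tn (τ n)) (xn (τ n)) (tn (τ n) - S) y * g n y := by
        show 1 ≤ (-dx u (en (τ n)) (tn (τ n)) (xn (τ n)))⁻¹ * _
        rw [le_inv_mul_iff₀ (hpos n), mul_one]
        exact a2
      have b2 : lam n * ∫ y, gk (pot f u) (tn (τ n)) (xn (τ n)) (tn (τ n) - S) y * g n y ≤
          1 + ε / 2 := by
        show (-dx u (en (τ n)) (tn (τ n)) (xn (τ n)))⁻¹ * _ ≤ _
        rw [inv_mul_le_iff₀ (hpos n), mul_comm]
        exact a3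
      rw [abs_lt]
      constructor <;> linarith
    obtain ⟨n1, hn1⟩ := eventually_atTop.1 h1
    exact ⟨n1, fun n hn => by rw [Real.dist_eq]; exact hn1 n hn⟩
  -- gains
  set β : ℝ := (cc + cc * α ^ 2 + M) / 2 with hβ
  have hgain : ∀ n, Gn (V n) (hf n) β cc (en (τ n)) S 0 0 ≤ (cc * M / 2 - ε1) * S := by
    intro n
    have h1 : Gn (V n) (hf n) β cc (en (τ n)) S 0 0 =
        Gn (pot f u) (fun y => lam n * g n y) β cc (en (τ n)) S (tn (τ n)) (xn (τ n)) :=
      ((hGTR N (pot f u) (fun y => lam n * g n y) β cc S (tn (τ n)) (en (τ n)) (xn (τ n)) hS).1).symm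
    rw [h1, hGSC N K (pot f u) (g n) β cc S (tn (τ n)) (lam n) (en (τ n)) (xn (τ n)) hPt hS
      (hlam0 n) (hgm n) (hg0 n) ⟨_, hgb n⟩ (hIpos n)]
    have h2 := hGn (τ n)
    have h3 : Real.log (lam n) = -Real.log (-dx u (en (τ n)) (tn (τ n)) (xn (τ n))) := by
      show Real.log ((-dx u (en (τ n)) (tn (τ n)) (xn (τ n)))⁻¹) = _
      rw [Real.log_inv]
    rw [h3]
    have h4 : Gn (pot f u) (g n) β cc (en (τ n)) S (tn (τ n)) (xn (τ n)) <
      Real.log (-dx u (en (τ n)) (tn (τ n)) (xn (τ n))) + (cc * M / 2 - ε1) * S := h2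
    linarith
  obtain ⟨_, hint1, _, _, hlow⟩ := hGLIM N K S β cc ((cc * M / 2 - ε1) * S) V W hf
    (fun y => p (y + S • w)) (fun n => en (τ n)) e hPtV hPtW hS hVlim
    (fun n => ⟨hhm n, hh0 n, hhb n⟩) hptw hbound (fun n => hen1 _) hek hIlim hgain
  have hp1 : p 0 = 1 := by
    have h1 := (hprep S hS 0).2
    rw [h1, ← hint1, zero_sub]
  have hwn : ‖w‖ ≤ 2 * cc * (1 + α) ^ 2 + M + 1 := by
    calc ‖w‖ ≤ ‖(cc * (1 - α ^ 2) - M) • e‖ + ‖(2 * cc) • a‖ := norm_sub_le _ _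
      _ = |cc * (1 - α ^ 2) - M| + 2 * cc * α := by
          rw [norm_smul, norm_smul, he, hanorm, Real.norm_eq_abs, Real.norm_eq_abs, mul_one,
            abs_of_pos (by positivity : 0 < 2 * cc)]
      _ ≤ (cc * (1 + α ^ 2) + M) + 2 * cc * α := by
          have : |cc * (1 - α ^ 2) - M| ≤ cc * (1 + α ^ 2) + M := by
            rw [abs_le]
            constructor <;> nlinarith [mul_nonneg hcc.le (sq_nonneg α)]
          linarith
      _ ≤ 2 * cc * (1 + α) ^ 2 + M + 1 := by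
          nlinarith [mul_nonneg hcc.le (sq_nonneg α), mul_nonneg hcc.le hα]
  have hsty := hsth W w p hPtW hwn hWs hpc hp0 (by rw [hp1]; exact one_pos) hprep
  have hb := hlibb W e a p he hanorm hae hsty hp1
  have hev := hlow (ε1 * S / 4) (by positivity)
  obtain ⟨n, hn⟩ := hev.exists
  have h1 := hgain n
  have h2 : (cc * M / 2 - ε1 / 2) * S ≤ Gn W (fun y => p (y + S • w)) β cc e S 0 0 := hb
  have h3 : 0 < ε1 * S := by positivity
  nlinarith

end Pool.Agent.H73.RF
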