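import Pool.Agent.H3.RF.Lib

/-!
# MP_609556_an, module LIB: the normalisation
-/

set_option autoImplicit false

open MeasureTheory Set Filter Topology Metric
open Pool.Agent.H29.TF (hk P)
open Pool.Agent.H91.RD Pool.Agent.H91.RF Pool.Agent.H3.RF

namespace Pool.Agent.H73.RF

theorem dx_abs_le {N : ℕ} (u : ℝ → E N → ℝ) (e : E N) (he : ‖e‖ = 1) (t : ℝ) (x : E N) :
    |dx u e t x| ≤ gr u t x := by
  unfold dx gr
  have := (fderiv ℝ (u t) x).le_opNorm e
  rw [he, mul_one] at this
  rwa [Real.norm_eq_abs] at this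

/-- the average of the positive part of `p` is close to `p` -/
theorem nrm (hKREP : T_KREP) (hNSUP : T_NSUP) (hUPB : T_UPB) (hLINU : T_LINU) (hKER : T_KER)
    {N : ℕ} {f : ℝ → ℝ} {K cc C0 C9 η0 : ℝ} {U : Set (E N)} {u : ℝ → E N → ℝ}
    (hst : Stg f K U u) (hcc : 0 < cc) (hfrm : Frm U u cc C0 C9 η0) (S : ℝ) (hS : 0 < S) :
    ∀ ε > 0, ∃ η > 0, ∃ T > 0, ∀ t ≥ T, ∀ x e, NDir U η x e →
      |infDist x U - cc * t| ≤ η * t → 0 < -dx u e t x ∧
      -dx u e t x ≤ ∫ y, gk (pot f u) t x (t - S) y * max (-dx u e (t - S) y) 0 ∧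
      ∫ y, gk (pot f u) t x (t - S) y * max (-dx u e (t - S) y) 0 ≤ (1 + ε) * -dx u e t x := by
  intro ε hε
  obtain ⟨hPt, _, hLin, C, hC⟩ := hLINU N f K U u hst.reac hst.lip hst.sol
  have hK := hPt.K0
  have hat : AtR U cc (fun _ t x e => 0 < -dx u e t x) := by
    intro _ _
    obtain ⟨T, hT, h⟩ := hfrm.pos
    exact ⟨η0, hfrm.hη0, T, hT, fun t ht x e h1 h2 => (h t ht x e h1 h2).1⟩
  obtain ⟨ρ, hρ, T1, hT1, hbox⟩ := hUPB N U cc _ hst.condC hst.ne hcc hat 1 one_pos
  obtain ⟨T0, hT0, hpos⟩ := hfrm.pos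
  obtain ⟨T3, hT3, hlow⟩ := hfrm.low (1 / 4) (by norm_num)
  set δ : ℝ := min 1 (ρ ^ 2 / (16 * (K + 2))) with hδ
  have hδ0 : 0 < δ := lt_min one_pos (by positivity)
  have hδ1 : δ ≤ 1 := min_le_left _ _
  have hδ2 : 16 * δ * (K * δ + 1 + 1) ≤ ρ ^ 2 := by
    have h1 : δ ≤ ρ ^ 2 / (16 * (K + 2)) := min_le_right _ _
    rw [le_div_iff₀ (by positivity)] at h1
    have h2 : 16 * δ * (K * δ + 1 + 1) ≤ 16 * δ * (K + 2) := by
      apply mul_le_mul_of_nonneg_left _ (by positivity)
      nlinarith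
    linarith
  obtain ⟨T2, hT2, hns⟩ := hNSUP N K (|C| + 1) ρ δ 1 hK (by positivity) hρ hδ0 one_pos hδ2
  have hC9 : 0 < C9 := lt_of_lt_of_le one_pos hfrm.hC9
  refine ⟨min ρ (min η0 (1 / (4 * C9))), by
    have := hfrm.hη0
    positivity, max (max (max T0 T1) (max T2 T3)) (max (max (S / ρ) (S / δ)) (max (2 / ε) (S + 1))),
    by positivity, ?_⟩
  intro t ht x e hd hr
  have ht0 : T0 ≤ t := le_trans (by simp) ht
  have ht1 : T1 ≤ t := le_trans (by simp) ht
  have ht2 : T2 ≤ t := le_trans (by simp) ht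
  have ht3 : T3 ≤ t := le_trans (by simp) ht
  have ht4 : S / ρ ≤ t := le_trans (by simp) ht
  have ht5 : S / δ ≤ t := le_trans (by simp) ht
  have ht6 : 2 / ε ≤ t := le_trans (by simp) ht
  have ht7 : S + 1 ≤ t := le_trans (by simp) ht
  have htp : 0 < t := by linarith
  rw [div_le_iff₀ hρ] at ht4
  rw [div_le_iff₀ hδ0] at ht5
  rw [div_le_iff₀ hε] at ht6
  have hdw : ∀ η', min ρ (min η0 (1 / (4 * C9))) ≤ η' → NDir U η' x e := by
    rintro η' hη'
    obtain ⟨h1, ξ, e0, h2, h3⟩ := hd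
    exact ⟨h1, ξ, e0, h2, h3.trans hη'⟩
  have hm1 : min ρ (min η0 (1 / (4 * C9))) ≤ ρ := min_le_left _ _
  have hm2 : min ρ (min η0 (1 / (4 * C9))) ≤ η0 := (min_le_right _ _).trans (min_le_left _ _)
  have hm3 : min ρ (min η0 (1 / (4 * C9))) ≤ 1 / (4 * C9) :=
    (min_le_right _ _).trans (min_le_right _ _)
  have he : ‖e‖ = 1 := hd.1
  have hp := (hpos t ht0 x e (hdw _ hm2) (hr.trans (by gcongr))).1
  have hpl := hlow t ht3 x e (hdw _ hm2) (hr.trans (by gcongr))
  have hple : Real.exp (-(t / 2)) ≤ -dx u e t x := by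
    refine le_trans ?_ hpl
    apply Real.exp_le_exp.2
    have h1 : C9 * |infDist x U - cc * t| ≤ t / 4 := by
      calc C9 * |infDist x U - cc * t| ≤ C9 * (1 / (4 * C9) * t) := by
            apply mul_le_mul_of_nonneg_left _ hC9.le
            exact hr.trans (by gcongr)
        _ = t / 4 := by field_simp
    linarith
  -- the function
  set z : E N → ℝ := dx u e (t - S) with hz
  have hzm : Measurable z := by
    have := (hLin (t - S) t (by linarith) (by linarith)).1 e
    exact this.meas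
  have hzb : ∀ y, |z y| ≤ |C| + 1 := by
    intro y
    have h1 := (hC (t - S) (by linarith) y).1
    have h2 := dx_abs_le u e he (t - S) y
    have h3 := le_abs_self C
    linarith
  have hrep : dx u e t x = ∫ y, gk (pot f u) t x (t - S) y * z y :=
    hKREP N K (t - S) t (pot f u) (dx u e) hPt ((hLin (t - S) t (by linarith) (by linarith)).1 e)
      (t - S) t le_rfl (by linarith) le_rfl x
  have hlt : t - S < t := by linarith
  have hgm : Measurable (fun y => max (z y) 0) := hzm.max measurable_const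
  have hgb : ∀ y, |max (z y) 0| ≤ |C| + 1 := by
    intro y
    rw [abs_of_nonneg (le_max_right _ _)]
    exact max_le ((le_abs_self _).trans (hzb y)) (by positivity)
  have hsplit : ∫ y, gk (pot f u) t x (t - S) y * max (-z y) 0 =
      -dx u e t x + ∫ y, gk (pot f u) t x (t - S) y * max (z y) 0 := by
    rw [hrep, ← integral_neg, ← integral_add]
    · apply integral_congr_ae
      filter_upwards with y
      have : max (-z y) 0 = -z y + max (z y) 0 := by
        rcases le_total (z y) 0 with h | h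
        · rw [max_eq_left (by linarith), max_eq_right h]; ring
        · rw [max_eq_right (by linarith), max_eq_left h]; ring
      rw [this]
      ring
    · exact (gk_int hKER hPt hlt x hzm hzb).neg
    · exact gk_int hKER hPt hlt x hgm hgb
  have hnn : 0 ≤ ∫ y, gk (pot f u) t x (t - S) y * max (z y) 0 :=
    gk_integral_nonneg hKER hPt hlt x (fun y => le_max_right _ _)
  have hsm : ∫ y, gk (pot f u) t x (t - S) y * max (z y) 0 ≤ ε * -dx u e t x := by
    have h1 := hns t ht2 (pot f u) (fun y => max (z y) 0) t S x hPt hgm hgb hS (by linarith) (by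
      intro y hy
      have := hbox t ht1 x e (hdw _ hm1) (hr.trans (by gcongr)) (t - S)
        ⟨by nlinarith, by linarith⟩ y hy
      apply max_eq_right
      rw [hz]
      linarith)
    have h2 : Real.exp (-(1 * t)) ≤ ε * Real.exp (-(t / 2)) := by
      have h3 : Real.exp (-(1 * t)) = Real.exp (-(t / 2)) * Real.exp (-(t / 2)) := by
        rw [← Real.exp_add]
        congr 1
        ring
      rw [h3]
      apply mul_le_mul_of_nonneg_right _ (Real.exp_pos _).le
      rw [Real.exp_neg, inv_le_comm₀ (Real.exp_pos _) hε]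
      have h4 := Real.add_one_le_exp (t / 2)
      have h5 : ε⁻¹ ≤ t / 2 := by
        rw [inv_le_iff_one_le_mul₀ hε]
        linarith
      linarith
    calc ∫ y, gk (pot f u) t x (t - S) y * max (z y) 0
        ≤ |∫ y, gk (pot f u) t x (t - S) y * max (z y) 0| := le_abs_self _
      _ ≤ Real.exp (-(1 * t)) := h1
      _ ≤ ε * Real.exp (-(t / 2)) := h2
      _ ≤ ε * -dx u e t x := by gcongr
  refine ⟨hp, ?_, ?_⟩
  · rw [hsplit]; linarith
  · rw [hsplit]; linarith

end Pool.Agent.H73.RF
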