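import Pool.Agent.H91.RF.TargetsF

/-!
# MP_609556_an, module TLIN: multiplication by time
-/

set_option autoImplicit false

open MeasureTheory Set Filter Topology Metric
open Pool.Agent.H29.TF (hk P)
open Pool.Agent.H91.RD Pool.Agent.H91.RF

namespace Pool.Agent.H73.RF

/-- jointly measurable and bounded on the open time interval -/
structure GF {N : ℕ} (s t : ℝ) (Φ : ℝ → E N → ℝ) : Prop where
  meas : Measurable (fun p : ℝ × E N => if p.1 ∈ Ioo s t then Φ p.1 p.2 else 0)
  bdd : ∃ M, ∀ r ∈ Ioo s t, ∀ y, |Φ r y| ≤ M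

theorem GF.slice {N : ℕ} {s t : ℝ} {Φ : ℝ → E N → ℝ} (h : GF s t Φ) {r : ℝ} (hr : r ∈ Ioo s t) :
    Measurable (Φ r) := by
  have h1 : Measurable (fun y : E N => if r ∈ Ioo s t then Φ r y else 0) :=
    h.meas.comp (measurable_prodMk_left (x := r))
  have h2 : (fun y : E N => if r ∈ Ioo s t then Φ r y else 0) = Φ r := by
    funext y
    rw [if_pos hr]
  rwa [h2] at h1

theorem GF.integrable {N : ℕ} {s t : ℝ} {Φ : ℝ → E N → ℝ} (h : GF s t Φ) {r : ℝ}
    (hr : r ∈ Ioo s t) (x : E N) : Integrable (fun y => hk (t - r) (x - y) * Φ r y) := by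
  obtain ⟨M, hM⟩ := h.bdd
  exact Pool.Agent.H29.TF.integrable_hk_mul (sub_pos.2 hr.2) (h.slice hr).aestronglyMeasurable
    (hM r hr) x

theorem GF.ii {N : ℕ} {s t : ℝ} {Φ : ℝ → E N → ℝ} (h : GF s t Φ) (hst : s < t) (x : E N) :
    IntervalIntegrable (fun r => P (t - r) (Φ r) x) volume s t := by
  rw [intervalIntegrable_iff_integrableOn_Ioc_of_le hst.le, integrableOn_Ioc_iff_integrableOn_Ioo]
  obtain ⟨M, hM⟩ := h.bdd
  have hm : StronglyMeasurable (fun r : ℝ => ∫ y : E N,
      hk (t - r) (x - y) * (if r ∈ Ioo s t then Φ r y else 0)) := by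
    have h1 : Measurable (fun p : ℝ × E N =>
        hk (t - p.1) (x - p.2) * (if p.1 ∈ Ioo s t then Φ p.1 p.2 else 0)) := by
      refine Measurable.mul ?_ h.meas
      exact Pool.Agent.H29.TF.measurable_hk_uncurry.comp
        ((measurable_const.sub measurable_fst).prodMk (measurable_const.sub measurable_snd))
    exact h1.stronglyMeasurable.integral_prod_right
  have h2 : IntegrableOn (fun r : ℝ => ∫ y : E N,
      hk (t - r) (x - y) * (if r ∈ Ioo s t then Φ r y else 0)) (Ioo s t) := by
    refine Measure.integrableOn_of_bounded (M := M) (by simp) hm.aestronglyMeasurable ?_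
    rw [ae_restrict_iff' measurableSet_Ioo]
    refine Eventually.of_forall fun r hr => ?_
    simp only [if_pos hr]
    rw [Real.norm_eq_abs]
    exact Pool.Agent.H29.TF.abs_P_le (sub_pos.2 hr.2) (hM r hr) x
  refine h2.congr_fun (fun r hr => ?_) measurableSet_Ioo
  simp only [if_pos hr]
  rfl

theorem GF.add {N : ℕ} {s t : ℝ} {Φ Ψ : ℝ → E N → ℝ} (h : GF s t Φ) (k : GF s t Ψ) :
    GF s t (fun r y => Φ r y + Ψ r y) := by
  constructor
  · convert h.meas.add k.meas using 1
    funext p
    simp only [Pi.add_apply]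
    split_ifs <;> simp
  · obtain ⟨M, hM⟩ := h.bdd
    obtain ⟨L, hL⟩ := k.bdd
    exact ⟨M + L, fun r hr y => (abs_add_le _ _).trans (add_le_add (hM r hr y) (hL r hr y))⟩

theorem GF.mulV {N : ℕ} {s t K : ℝ} {V Φ : ℝ → E N → ℝ} (h : GF s t Φ) (hV : Pt K V) :
    GF s t (fun r y => V r y * Φ r y) := by
  constructor
  · convert hV.meas.mul h.meas using 1
    funext p
    simp only [Pi.mul_apply]
    split_ifs <;> simp
  · obtain ⟨M, hM⟩ := h.bdd
    refine ⟨K * M, fun r hr y => ?_⟩
    rw [abs_mul]
    exact mul_le_mul (hV.bdd r y) (hM r hr y) (abs_nonneg _) hV.K0.le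

theorem GF.mulT {N : ℕ} {s t : ℝ} {Φ : ℝ → E N → ℝ} (h : GF s t Φ) (a : ℝ) (hst : s < t) :
    GF s t (fun r y => (r - a) * Φ r y) := by
  constructor
  · convert (measurable_fst.sub_const a).mul h.meas using 1
    funext p
    simp only [Pi.mul_apply]
    split_ifs <;> simp
  · obtain ⟨M, hM⟩ := h.bdd
    refine ⟨(|s| + |t| + |a|) * M, fun r hr y => ?_⟩
    rw [abs_mul]
    have h1 : |r - a| ≤ |s| + |t| + |a| := by
      have := abs_sub r a
      have h2 : |r| ≤ |s| + |t| := by
        rw [abs_le]
        constructor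
        · have := neg_abs_le s
          have := abs_nonneg t
          linarith [hr.1]
        · have := le_abs_self t
          have := abs_nonneg s
          linarith [hr.2]
      linarith
    exact mul_le_mul h1 (hM r hr y) (abs_nonneg _) (by positivity)

theorem LinD.gf {N : ℕ} {V : ℝ → E N → ℝ} {a b : ℝ} {z : ℝ → E N → ℝ} (hz : LinD V a b z)
    {s t : ℝ} (hs : a ≤ s) (ht : t ≤ b) : GF s t z := by
  constructor
  · have hsub : (Ioo s t ×ˢ (univ : Set (E N))) ⊆ Ioc a b ×ˢ univ := by
      intro p hp
      exact ⟨⟨lt_of_le_of_lt hs hp.1.1, hp.1.2.le.trans ht⟩, trivial⟩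
    have h1 := ContinuousOn.measurable_piecewise (s := Ioo s t ×ˢ (univ : Set (E N)))
      (f := fun p : ℝ × E N => z p.1 p.2) (g := fun _ => 0)
      (hz.cont.mono hsub) continuousOn_const (measurableSet_Ioo.prod MeasurableSet.univ)
    convert h1 using 1
    funext p
    by_cases hp : p.1 ∈ Ioo s t
    · rw [if_pos hp, Set.piecewise_eq_of_mem _ _ _ (show p ∈ Ioo s t ×ˢ univ from ⟨hp, trivial⟩)]
    · rw [if_neg hp, Set.piecewise_eq_of_notMem _ _ _ (fun h => hp h.1)]
  · obtain ⟨M, hM⟩ := hz.bdd
    exact ⟨M, fun r hr y => hM r ⟨hs.trans hr.1.le, hr.2.le.trans ht⟩ y⟩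

/-- Fubini on the triangle -/
theorem triangle {s t : ℝ} (hst : s < t) {g : ℝ → ℝ} (hg : IntervalIntegrable g volume s t) :
    ∫ r in s..t, (∫ ρ in r..t, g ρ) = ∫ ρ in s..t, (ρ - s) * g ρ := by
  rw [intervalIntegral.integral_of_le hst.le, intervalIntegral.integral_of_le hst.le]
  have hg' : Integrable g (volume.restrict (Ioc s t)) :=
    (intervalIntegrable_iff_integrableOn_Ioc_of_le hst.le).1 hg
  have hI : Integrable (fun p : ℝ × ℝ => if p.1 < p.2 then g p.2 else 0)
      ((volume.restrict (Ioc s t)).prod (volume.restrict (Ioc s t))) := by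
    have h1 := (hg'.comp_snd (volume.restrict (Ioc s t))).indicator
      (measurableSet_lt (measurable_fst (α := ℝ) (β := ℝ)) measurable_snd)
    refine h1.congr (Eventually.of_forall fun p => ?_)
    by_cases hp : p.1 < p.2 <;> simp [hp, Set.indicator]
  have hsw := integral_integral_swap (f := fun r ρ : ℝ => if r < ρ then g ρ else 0) hI
  have e1 : ∫ r in Ioc s t, (∫ ρ in r..t, g ρ) =
      ∫ r in Ioc s t, ∫ ρ in Ioc s t, if r < ρ then g ρ else 0 := by
    refine setIntegral_congr_fun measurableSet_Ioc fun r hr => ?_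
    rw [intervalIntegral.integral_of_le hr.2]
    have h2 : ∫ ρ in Ioc s t, (if r < ρ then g ρ else 0) =
        ∫ ρ in Ioc s t, (Ioi r).indicator g ρ := by
      refine integral_congr_ae (Eventually.of_forall fun ρ => ?_)
      by_cases hp : r < ρ <;> simp [hp, Set.indicator]
    rw [h2, setIntegral_indicator measurableSet_Ioi]
    congr 2
    ext ρ
    constructor
    · intro h
      exact ⟨⟨lt_trans hr.1 h.1, h.2⟩, h.1⟩
    · intro h
      exact ⟨h.2, h.1.2⟩
  have e2 : ∫ ρ in Ioc s t, (ρ - s) * g ρ =
      ∫ ρ in Ioc s t, ∫ r in Ioc s t, if r < ρ then g ρ else 0 := by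
    refine setIntegral_congr_fun measurableSet_Ioc fun ρ hρ => ?_
    have h2 : ∫ r in Ioc s t, (if r < ρ then g ρ else 0) =
        ∫ r in Ioc s t, (Iio ρ).indicator (fun _ => g ρ) r := by
      refine integral_congr_ae (Eventually.of_forall fun r => ?_)
      by_cases hp : r < ρ <;> simp [hp, Set.indicator]
    rw [h2, setIntegral_indicator measurableSet_Iio]
    have h3 : Ioc s t ∩ Iio ρ = Ioo s ρ := by
      ext r
      constructor
      · intro h
        exact ⟨h.1.1, h.2⟩
      · intro h
        exact ⟨⟨h.1, h.2.le.trans hρ.2⟩, h.2⟩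
    rw [h3, setIntegral_const, Real.volume_real_Ioo_of_le hρ.1.le, smul_eq_mul]
  rw [e1, hsw, e2]

theorem TLIN : T_TLIN := by
  intro N K a b V z hV hz
  refine ⟨?_, ?_, ?_, ?_⟩
  · obtain ⟨M, hM⟩ := hz.bdd
    refine ⟨(b - a) * M, fun t ht x => ?_⟩
    rw [abs_mul, abs_of_nonneg (sub_nonneg.2 ht.1)]
    exact mul_le_mul (by linarith [ht.2]) (hM t ht x) (abs_nonneg _) (by linarith [ht.1, ht.2])
  · simp only [sub_self, zero_mul]
    exact measurable_const
  · exact ContinuousOn.mul (by fun_prop) hz.cont
  · intro s t hs hst ht x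
    have gz : GF s t z := LinD.gf hz hs ht
    have gV : GF s t (fun r y => V r y * z r y) := gz.mulV hV
    set g : ℝ → ℝ := fun r => P (t - r) (fun y => V r y * z r y) x with hgdef
    set F : ℝ → ℝ := fun r => P (t - r) (z r) x with hFdef
    have hg : IntervalIntegrable g volume s t := gV.ii hst x
    have hF : IntervalIntegrable F volume s t := gz.ii hst x
    have hG : IntervalIntegrable (fun r => ∫ ρ in r..t, g ρ) volume s t := by
      have : ContinuousOn (fun r => ∫ ρ in r..t, g ρ) (uIcc s t) := by
        have h1 := intervalIntegral.continuousOn_primitive_interval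
          (f := g) (μ := volume) (a := s) (b := t)
          (by rw [uIcc_of_le hst.le, integrableOn_Icc_iff_integrableOn_Ioc]
              exact (intervalIntegrable_iff_integrableOn_Ioc_of_le hst.le).1 hg)
        have h2 : EqOn (fun r => ∫ ρ in r..t, g ρ)
            (fun r => (∫ ρ in s..t, g ρ) - ∫ ρ in s..r, g ρ) (uIcc s t) := by
          intro r hr
          have h3 := intervalIntegral.integral_add_adjacent_intervals
            (hg.mono_set (uIcc_subset_uIcc left_mem_uIcc hr))
            (hg.mono_set (uIcc_subset_uIcc hr right_mem_uIcc))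
          simp only
          linarith
        exact (continuousOn_const.sub h1).congr h2
      exact this.intervalIntegrable
    have hd := hz.duh s t hs hst ht x
    have hint : (t - s) * z t x = (∫ r in s..t, F r) + ∫ r in s..t, (r - s) * g r := by
      have h1 : ∫ r in s..t, z t x = ∫ r in s..t, (F r + ∫ ρ in r..t, g ρ) := by
        refine intervalIntegral.integral_congr_ae ?_
        have : ∀ᵐ r ∂(volume : Measure ℝ), r ≠ t := by
          simp [ae_iff, measure_singleton]
        filter_upwards [this] with r hrt hr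
        rw [uIoc_of_le hst.le] at hr
        exact hz.duh r t (hs.trans hr.1.le) (lt_of_le_of_ne hr.2 hrt) ht x
      rw [intervalIntegral.integral_add hF hG, triangle hst hg] at h1
      rw [← h1, intervalIntegral.integral_const, smul_eq_mul]
    have hfin : ∫ r in s..t, P (t - r) (fun y => V r y * ((r - a) * z r y) + z r y) x =
        (∫ r in s..t, (r - s) * g r) + (s - a) * (∫ r in s..t, g r) + ∫ r in s..t, F r := by
      have hgs : IntervalIntegrable (fun r => (r - s) * g r) volume s t :=
        hg.continuousOn_mul (by fun_prop)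
      have h1 : ∫ r in s..t, P (t - r) (fun y => V r y * ((r - a) * z r y) + z r y) x =
          ∫ r in s..t, ((r - s) * g r + (s - a) * g r + F r) := by
        refine intervalIntegral.integral_congr_ae ?_
        have : ∀ᵐ r ∂(volume : Measure ℝ), r ≠ t := by
          simp [ae_iff, measure_singleton]
        filter_upwards [this] with r hrt hr
        rw [uIoc_of_le hst.le] at hr
        have hr' : r ∈ Ioo s t := ⟨hr.1, lt_of_le_of_ne hr.2 hrt⟩
        have gT : GF s t (fun r y => V r y * ((r - a) * z r y)) := (gz.mulT a hst).mulV hV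
        rw [Pool.Agent.H29.TF.P_add x (gT.integrable hr' x) (gz.integrable hr' x)]
        have h2 : P (t - r) (fun y => V r y * ((r - a) * z r y)) x = (r - a) * g r := by
          rw [hgdef, ← Pool.Agent.H29.TF.P_const_mul]
          congr 1
          funext y
          ring
        rw [h2]
        simp only [hFdef]
        ring
      rw [h1, intervalIntegral.integral_add (hgs.add (hg.const_mul _)) hF,
        intervalIntegral.integral_add hgs (hg.const_mul _), intervalIntegral.integral_const_mul]
    rw [hfin, Pool.Agent.H29.TF.P_const_mul]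
    have h4 : (t - a) * z t x = (s - a) * z t x + (t - s) * z t x := by ring
    rw [h4, hint, hd]
    ring

end Pool.Agent.H73.RF
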