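import Pool.Agent.H91.RF.TargetsF

/-!
# MP_609556_an, module TRIV: trivial lower bound of the gain
-/

set_option autoImplicit false

open MeasureTheory Set Filter Topology Metric
open Pool.Agent.H91.RD Pool.Agent.H91.RF

namespace Pool.Agent.H73.RF

theorem TRIV (hENT : T_ENT) : T_TRIV := by
  intro N K S t β c V h x e hV hS hβ hc he hm h0 hM hpos
  have h1 := (hENT N K S t V h x hV hS hm h0 hM hpos).1 e he
  set m := Ex V h S t x (fun y => inner ℝ (y - x) e) with hmdef
  set A := Real.log (∫ y, gk V t x (t - S) y * h y) with hA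
  unfold Gn
  rw [← hmdef]
  have h2 : 0 ≤ m ^ 2 / (4 * S) + β * m + β ^ 2 * S := by
    have : m ^ 2 / (4 * S) + β * m + β ^ 2 * S = (m + 2 * β * S) ^ 2 / (4 * S) := by
      field_simp
      ring
    rw [this]
    positivity
  have h3 : 0 ≤ β * (c * S) := by positivity
  nlinarith [h1, h2, h3]

end Pool.Agent.H73.RF
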